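import Pool.Agent.Helper92.RECT.Goals3
import Pool.Agent.Helper30.RECT.REAL
import Pool.Agent.Helper39.RECT.WBN

/-!
# RECT, packet RUN: the process on numbers follows the machine
-/

set_option autoImplicit false

namespace Pool.Agent.Helper3.RECT

open Pool.Agent.Helper92.RECT
open Pool.Agent.Helper65.LinSpace Pool.Agent.Helper78.Mpc Pool.Agent.Helper28.Ram Finset
open Pool.Agent.Helper65.OH (Prm OneHead Conf Par InBox co GoodQ Fns)
open Pool.Agent.Helper28.OHS (cellN cs cn cd Rep)

variable {D : ℕ}

theorem lms_lm (m : Prm) (Λ : ℕ) (ℓ : ℕ → Option (List Bool × (Fin D → ℤ)))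
    (h : LMs m Λ ℓ) : LM m Λ ℓ := by
  intro i
  rcases h i with h1 | ⟨ρ, h1, h2, -⟩
  · exact Or.inl h1
  · refine Or.inr ⟨ρ, h1, ?_, Or.inl h2⟩
    intro h0
    have h3 := h2.wq
    rw [h0, Nat.zero_mod] at h3
    have h4 := Pool.Agent.Helper65.LinSpace.num_pos ρ.1
    omega

theorem pow_half {κ : ℕ} (hκ : 2 ≤ κ) : (2 : ℤ) ^ (κ - 1) = 2 * 2 ^ (κ - 2) ∧
    (2 : ℤ) ^ κ = 4 * 2 ^ (κ - 2) ∧ (1 : ℤ) ≤ 2 ^ (κ - 2) := by
  obtain ⟨c, rfl⟩ := Nat.exists_eq_add_of_le hκ
  have h1 : 2 + c - 1 = c + 1 := by omega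
  have h2 : 2 + c - 2 = c := by omega
  rw [h1, h2]
  refine ⟨by ring, by ring, ?_⟩
  exact one_le_pow₀ (by norm_num)

theorem run (_RNS : RNS_stmt) (STA : STA_stmt) (STN : STN_stmt) (REAL : REAL_stmt)
    (_WBN : WBN_stmt) : RUN_stmt := by
  intro D A w y s P P' t₀ t₁ hR d a V Tc hd ha hV
  have hr := hR.rdy
  have hD : 0 < D := hr.pos
  have hκ := pow_half hr.κ
  have hPP : P < P' := by
    have h1 := hr.W
    have h2 := hr.Wpos
    omega
  have hreal := REAL hD A w y P P' t₀ t₁ hPP hR.le hR.na
  obtain ⟨r1, r2, r3⟩ := hreal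
  have hσn : (rslb A w y P P' t₀ t₁).n = s.n := hR.n.symm
  have hσW : (rslb A w y P P' t₀ t₁).W = P' - P := rfl
  have hL : LMs s.m s.L (rslb A w y P P' t₀ t₁).L := hR.L
  have hR' : LMs s.m s.R (rslb A w y P P' t₀ t₁).R := hR.R
  have hLM := lms_lm _ _ _ hL
  have hRM := lms_lm _ _ _ hR'
  -- the time of a step
  have htime : ∀ j ≤ jt A w y P P' t₀ t₁, ∃ u, t₀ ≤ u ∧ u ≤ t₁ ∧
      (j < jt A w y P P' t₀ t₁ → u < t₁) ∧ rl A w y P P' t₀ t₁ j =
        lcf P P' (nc A w y P t₀ u) (nc A w y P' t₀ u) (time A w y P P' t₀ u)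
          (A.conf w y u) := by
    intro j hj
    rcases Nat.lt_or_ge j (jt A w y P P' t₀ t₁) with h | h
    · obtain ⟨u, h1, h2, -, h4, -⟩ :=
        Pool.Agent.Helper39.RECT.time_of A w y P P' hR.le j h
      refine ⟨u, h1, h2.le, fun _ => h2, ?_⟩
      rw [← h4]
      exact r1 u h1 h2.le
    · have : j = jt A w y P P' t₀ t₁ := le_antisymm hj h
      refine ⟨t₁, hR.le, le_refl _, fun h' => absurd h' (by omega), ?_⟩
      rw [this]
      exact r1 t₁ hR.le (le_refl _)
  have hfin : ∀ j < jt A w y P P' t₀ t₁, ∀ q, Cd s P (rl A w y P P' t₀ t₁ j) q →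
      s.fin q = 0 := by
    intro j hj q hq
    by_contra h
    exact (r3 j hj).2 ((STN.fin s P _ _ q hq hσn hLM hRM).mp h)
  have hne : ∀ j ≤ jt A w y P P' t₀ t₁, (rl A w y P P' t₀ t₁ j).md ≠ 0 := by
    intro j hj
    obtain ⟨u, -, -, -, h⟩ := htime j hj
    rw [h]
    exact Pool.Agent.Helper30.RECT.lcf_md _ _ _ _ _ _
  have hmain : ∀ j ≤ jt A w y P P' t₀ t₁,
      Cd s P (rl A w y P P' t₀ t₁ j) ((s.pr d a V Tc).X j).1 ∧
      Cts s P (rl A w y P P' t₀ t₁ j) ((s.pr d a V Tc).X j).2 := by
    intro j
    induction j with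
    | zero =>
      intro _
      have h0 : rl A w y P P' t₀ t₁ 0 = lcf P P' 0 0 0 (A.conf w y t₀) := rfl
      have hX : (s.pr d a V Tc).X 0 = (s.q0, s.M0) := rfl
      rw [h0, hX]
      refine ⟨?_, STA.cts A w y s P P' hr _ hR.c⟩
      rcases STA.snd A w y s P P' hr _ hR.c with h | h
      · exfalso
        refine STA.cmp A w y s P P' hr _ hR.c ?_ h
        intro k hk
        have h1 := hR.oth t₀ le_rfl hR.le k hk
        rw [hκ.1]
        constructor <;> linarith [h1.1, h1.2, hκ.2.2]
      · exact h
    | succ j ih =>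
      intro hj
      obtain ⟨ih1, ih2⟩ := ih (by omega)
      have hf := hfin j (by omega) _ ih1
      have hX : (s.pr d a V Tc).X (j + 1) =
          (s.N ((s.pr d a V Tc).X j).1
            (((s.pr d a V Tc).X j).2 (s.ce ((s.pr d a V Tc).X j).1)),
            Function.update ((s.pr d a V Tc).X j).2 (s.ce ((s.pr d a V Tc).X j).1)
              (s.Wr ((s.pr d a V Tc).X j).1
                (((s.pr d a V Tc).X j).2 (s.ce ((s.pr d a V Tc).X j).1)))) := rfl
      have hrl : rl A w y P P' t₀ t₁ (j + 1) =
          lstep A w y (rslb A w y P P' t₀ t₁) (rl A w y P P' t₀ t₁ j) := rfl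
      have hcmp : s.md (s.N ((s.pr d a V Tc).X j).1
          (((s.pr d a V Tc).X j).2 (s.ce ((s.pr d a V Tc).X j).1))) ≠ 0 := by
        apply STN.cmp A w y s P P' (rslb A w y P P' t₀ t₁) hr hσW hσn hL hR' _ _ _ ih1 ih2 hf
        · rw [← hrl]
          exact hne (j + 1) hj
        · rw [← hrl]
          intro hmd
          obtain ⟨u, h1, h2, -, h4⟩ := htime (j + 1) hj
          rw [h4] at hmd ⊢
          rw [Pool.Agent.Helper39.RECT.lcf_md] at hmd
          rw [Pool.Agent.Helper39.RECT.lcf_h P P' _ _ _ _ hmd,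
            Pool.Agent.Helper30.RECT.shf_shf, show -P + P = (0 : ℤ) by ring,
            Pool.Agent.Helper30.RECT.shf_zero]
          exact hR.box u h1 h2
        · intro hmd
          obtain ⟨u, h1, h2, h3, h4⟩ := htime j (by omega)
          have h3 := h3 (by omega)
          rw [h4] at hmd ⊢
          rw [Pool.Agent.Helper39.RECT.lcf_md] at hmd
          have hC : (lcf P P' (nc A w y P t₀ u) (nc A w y P' t₀ u) (time A w y P P' t₀ u)
              (A.conf w y u)).C = ⟨(A.conf w y u).q, shf (-P) (A.conf w y u).h,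
                lM P P' (A.conf w y u).M⟩ := by
            unfold lcf
            rw [if_pos hmd]
          rw [hC]
          have hst := Pool.Agent.Helper30.RECT.step_loc hD A w y P P' (A.conf w y u) hmd
          have hat := Pool.Agent.Helper30.RECT.lM_at hD P P' (A.conf w y u) hmd
          have f1 := hR.fit u (by omega)
          have f2 := hR.fit (u + 1) (by omega)
          refine ⟨f1.2.1, ?_, ?_, ?_, ?_⟩
          · show (lM P P' (A.conf w y u).M (shf (-P) (A.conf w y u).h)).length ≤ s.m.S
            rw [hat]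
            exact f1.2.2 _
          · rw [hst]
            exact f2.1
          · show (A.write (A.inp w y (A.conf w y u).q
              (lM P P' (A.conf w y u).M (shf (-P) (A.conf w y u).h)))).length ≤ s.m.S
            rw [hat]
            have h5 := f2.2.2 (A.conf w y u).h
            have h6 : (A.conf w y (u + 1)).M (A.conf w y u).h =
                A.write (A.inp w y (A.conf w y u).q
                  ((A.conf w y u).M (A.conf w y u).h)) := by
              show Function.update _ _ _ _ = _
              rw [Function.update_self]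
            rw [h6] at h5
            exact h5
          · rw [hst]
            show InBox s.m.κ (shf (-P) (A.conf w y (u + 1)).h)
            intro k
            have hb := Pool.Agent.Helper30.RECT.fst_step hD A w y (A.conf w y u)
            by_cases hk : k.val = 0
            · have h7 : shf (-P) (A.conf w y (u + 1)).h k =
                  fst (A.step w y (A.conf w y u)).h - P := by
                rw [Pool.Agent.Helper30.RECT.fst_eq hD]
                have hk' : k = ⟨0, hD⟩ := Fin.ext hk
                subst hk'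
                show (if (0 : ℕ) = 0 then _ else _) = _
                rw [if_pos rfl]
                show _ + -P = _ - P
                rfl
              rw [h7, hκ.1, hκ.2.1]
              have hW := hr.W
              have hW2 : (s.W : ℤ) ≤ 2 ^ (s.m.κ - 2) := by
                exact_mod_cast hr.Wle
              constructor <;> linarith [hb.1, hb.2, hmd.1, hmd.2, hκ.2.2]
            · have h7 : shf (-P) (A.conf w y (u + 1)).h k = (A.conf w y (u + 1)).h k := by
                unfold shf
                rw [if_neg hk]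
              rw [h7, hκ.1, hκ.2.1]
              have h8 := hR.oth (u + 1) (by omega) (by omega) k hk
              constructor <;> linarith [h8.1, h8.2, hκ.2.2]
      rcases STN.snd A w y s P P' (rslb A w y P P' t₀ t₁) hr hσW hσn hLM hRM _ _ _ ih1 ih2 hf
        with h | h
      · exact absurd h hcmp
      · rw [hX, hrl]
        exact h
  refine ⟨hmain, fun j hj => hfin j hj _ (hmain j hj.le).1, ?_⟩
  exact (STN.fin s P _ _ _ (hmain _ le_rfl).1 hσn hLM hRM).mpr r2

end Pool.Agent.Helper3.RECT
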